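import Pool.Agent.Helper65.HF.StA

/-!
# Project HF, module SPC: generic rank and specializations
-/

set_option autoImplicit false

namespace Pool.Agent.Helper3.HF

open MvPolynomial Pool.Agent.Helper65.HF

private theorem exps {K σ : Type} [Field K] {N : ℕ} (V : Fin N → MvPolynomial σ K)
    (hV : LinearIndependent K V) :
    ∃ v : Fin N → (σ →₀ ℕ), (Matrix.of fun i i' => coeff (v i) (V i')).det ≠ 0 := by
  classical
  let S : Finset (σ →₀ ℕ) := Finset.univ.biUnion fun i => (V i).support
  let A : Matrix (Fin N) S K := Matrix.of fun i s => coeff (s : σ →₀ ℕ) (V i)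
  have hA : LinearIndependent K A.row := by
    rw [Fintype.linearIndependent_iff] at hV ⊢
    intro g hg i
    refine hV g ?_ i
    ext s
    rw [coeff_sum, coeff_zero]
    by_cases hs : s ∈ S
    · have h := congrFun hg ⟨s, hs⟩
      rw [Finset.sum_apply] at h
      simpa [A, coeff_smul] using h
    · refine Finset.sum_eq_zero fun j _ => ?_
      have : coeff s (V j) = 0 := by
        by_contra hne
        exact hs (Finset.mem_biUnion.mpr ⟨j, Finset.mem_univ _, mem_support_iff.mpr hne⟩)
      rw [coeff_smul, this, smul_zero]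
  have hr : A.rank = N := by
    rw [hA.rank_matrix, Fintype.card_fin]
  have hr2 : Module.finrank K (Submodule.span K (Set.range A.col)) = N := by
    rw [← Matrix.rank_eq_finrank_span_cols, hr]
  obtain ⟨n, hn, f, hf1, hf3⟩ : ∃ n, n = Module.finrank K (Submodule.span K (Set.range A.col)) ∧
      ∃ f : Fin n → (Fin N → K), (∀ i, f i ∈ Set.range A.col) ∧ LinearIndependent K f := by
    obtain ⟨f, hf1, _, hf3⟩ := Submodule.exists_fun_fin_finrank_span_eq K (Set.range A.col)
    exact ⟨_, rfl, f, hf1, hf3⟩
  rw [hr2] at hn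
  subst hn
  choose v hv using hf1
  refine ⟨fun i => (v i : σ →₀ ℕ), ?_⟩
  have h1 : LinearIndependent K (Matrix.of f).row := hf3
  rw [Matrix.linearIndependent_rows_iff_isUnit] at h1
  have h2 : (Matrix.of fun i i' => coeff (v i : σ →₀ ℕ) (V i')) = Matrix.of f := by
    ext i i'
    rw [Matrix.of_apply, Matrix.of_apply, ← hv i]
    rfl
  rw [h2]
  exact ((Matrix.isUnit_iff_isUnit_det _).mp h1).ne_zero

private theorem hiB {R K σ ι' : Type} [CommRing R] [Field K] [Finite ι'] (φ : R →+* K)
    (W : ι' → MvPolynomial σ R) :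
    ∃ (a : Fin (Module.finrank K (Submodule.span K (Set.range fun i => map φ (W i)))) → ι')
      (v : Fin (Module.finrank K (Submodule.span K (Set.range fun i => map φ (W i)))) →
        (σ →₀ ℕ)), φ (Matrix.of fun i i' => coeff (v i) (W (a i'))).det ≠ 0 := by
  classical
  have hfin : Module.Finite K (Submodule.span K (Set.range fun i => map φ (W i))) :=
    FiniteDimensional.span_of_finite K (Set.finite_range _)
  obtain ⟨f, hf1, _, hf3⟩ := Submodule.exists_fun_fin_finrank_span_eq K
      (Set.range fun i => map φ (W i))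
  choose a ha using hf1
  obtain ⟨v, hv⟩ := exps f hf3
  refine ⟨a, v, ?_⟩
  rw [RingHom.map_det]
  convert hv using 2
  ext i i'
  rw [RingHom.mapMatrix_apply, Matrix.map_apply, Matrix.of_apply, Matrix.of_apply, ← ha i']
  simp only [coeff_map]

private theorem loA {R K σ ι' : Type} [CommRing R] [Field K] [Finite ι'] (φ : R →+* K)
    (W : ι' → MvPolynomial σ R) (N : ℕ) (a : Fin N → ι') (v : Fin N → (σ →₀ ℕ))
    (h : φ (Matrix.of fun i i' => coeff (v i) (W (a i'))).det ≠ 0) :
    N ≤ Module.finrank K (Submodule.span K (Set.range fun i => map φ (W i))) := by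
  classical
  have hli : LinearIndependent K (fun i' => map φ (W (a i'))) := by
    refine LinearIndependent.of_comp (LinearMap.pi fun i => lcoeff K (v i)) ?_
    rw [RingHom.map_det] at h
    have := Matrix.linearIndependent_cols_of_det_ne_zero h
    have e : (φ.mapMatrix (Matrix.of fun i i' => coeff (v i) (W (a i')))).col =
        (LinearMap.pi fun i => lcoeff K (v i)) ∘ (fun i' => map φ (W (a i'))) := by
      funext i' i
      simp [Matrix.col_apply, lcoeff_apply, coeff_map]
    rw [← e]
    exact this
  have hfin2 : Module.Finite K (Submodule.span K (Set.range fun i => map φ (W i))) :=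
    FiniteDimensional.span_of_finite K (Set.finite_range _)
  have hc := finrank_span_eq_card hli
  rw [Fintype.card_fin] at hc
  rw [← hc]
  refine Submodule.finrank_mono (Submodule.span_mono ?_)
  rintro _ ⟨i, rfl⟩
  exact ⟨a i, rfl⟩

theorem hSPC : Pool.Agent.Helper65.HF.sSPC := by
  intro k _ _ σ τ ι' _ W
  constructor
  · intro P
    obtain ⟨a, v, h⟩ := hiB (eval P) W
    refine loA _ W _ a v ?_
    intro h0
    have : (Matrix.of fun i i' => coeff (v i) (W (a i'))).det = 0 :=
      (FaithfulSMul.algebraMap_injective (MvPolynomial τ k) (FractionRing (MvPolynomial τ k)))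
        (by rw [h0, map_zero])
    rw [this, map_zero] at h
    exact h rfl
  · obtain ⟨a, v, h⟩ := hiB (algebraMap (MvPolynomial τ k) (FractionRing (MvPolynomial τ k))) W
    have hG : (Matrix.of fun i i' => coeff (v i) (W (a i'))).det ≠ 0 := by
      intro h0
      rw [h0, map_zero] at h
      exact h rfl
    obtain ⟨P, hP⟩ : ∃ P : τ → k, eval P (Matrix.of fun i i' => coeff (v i) (W (a i'))).det ≠ 0 := by
      by_contra hne
      push Not at hne
      exact hG (MvPolynomial.funext fun P => by rw [hne P, map_zero])
    exact ⟨P, loA _ W _ a v hP⟩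

end Pool.Agent.Helper3.HF
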